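import Mathlib

/-!
# MP_8b0535_co: bipartite graphs with prescribed pair and triple common neighbourhoods

There is no admissible sequence for any function `b₂` with `1 ≪ b₂ ≪ √m`.

Idea.  If every three vertices of `A` have exactly one common neighbour, then for each `u ∈ A` the
sets `N(b) \ {u}`, `b ∈ N(u)`, are the lines of a linear space on `A \ {u}`.  In a linear space a
line missing the point `v` has at most as many points as there are lines through `v`.  So, unless
some `b` is joined to all of `A`, all degrees on the side `B` are at most `1 + Λ`, where `Λ` is the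
largest size of a pair neighbourhood, and counting gives `m - 2 ≤ Λ (Λ - 1)`.
-/

set_option autoImplicit false

namespace Pool.Agent.Results.MP_8b0535_co.NoAdmissible

open Filter Topology Finset
open scoped Classical

/-- For a bipartite graph with parts `Fin m` and `Fin N` and adjacency relation `adj`, the size
`|N(S)|` of the common neighbourhood of the set `S` of vertices of the first part. -/
noncomputable def common {m N : ℕ} (adj : Fin m → Fin N → Prop) (S : Finset (Fin m)) : ℕ :=
  Nat.card {b : Fin N // ∀ u ∈ S, adj u b}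

/-- `1 ≪ b₂ ≪ √m`: the function `b₂` is positive, tends to infinity, and `b₂(m)/√m → 0`. -/
def InRange (b₂ : ℕ → ℝ) : Prop :=
  (∀ m, 0 < b₂ m) ∧ Tendsto b₂ atTop atTop ∧
    Tendsto (fun m : ℕ => b₂ m / Real.sqrt m) atTop (𝓝 0)

/-- The sequence of bipartite graphs `G_m`, with parts `A_m = Fin m`, `B_m = Fin (N m)` and
adjacency relation `adj m`, satisfies for all sufficiently large `m` the conditions of the problem:
the degrees of the vertices of `A_m` are uniformly asymptotic to `m`, the common neighbourhoods of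
pairs in `A_m` have sizes uniformly asymptotic to `b₂(m)`, and any three distinct vertices of `A_m`
have exactly one common neighbour. -/
structure Admissible (b₂ : ℕ → ℝ) (N : ℕ → ℕ) (adj : ∀ m : ℕ, Fin m → Fin (N m) → Prop) :
    Prop where
  degree : ∀ ε : ℝ, 0 < ε → ∀ᶠ m : ℕ in atTop, ∀ u : Fin m,
    |(common (adj m) {u} : ℝ) / m - 1| ≤ ε
  pair : ∀ ε : ℝ, 0 < ε → ∀ᶠ m : ℕ in atTop, ∀ u v : Fin m, u ≠ v →
    |(common (adj m) {u, v} : ℝ) / b₂ m - 1| ≤ ε
  triple : ∀ᶠ m : ℕ in atTop, ∀ u v w : Fin m, u ≠ v → u ≠ w → v ≠ w →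
    common (adj m) {u, v, w} = 1

section combinatorics

variable {m N : ℕ} (adj : Fin m → Fin N → Prop)

theorem common_eq (S : Finset (Fin m)) :
    common adj S = (univ.filter (fun b : Fin N => ∀ u ∈ S, adj u b)).card := by
  unfold common
  rw [Nat.card_eq_fintype_card, Fintype.card_subtype]

variable {adj}

theorem exists_common (h3 : ∀ u v w : Fin m, u ≠ v → u ≠ w → v ≠ w → common adj {u, v, w} = 1)
    {u v w : Fin m} (h1 : u ≠ v) (h2 : u ≠ w) (h4 : v ≠ w) :
    ∃ b, adj u b ∧ adj v b ∧ adj w b := by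
  have h := h3 u v w h1 h2 h4
  rw [common_eq] at h
  obtain ⟨b, hb⟩ := Finset.card_pos.1 (by rw [h]; exact one_pos)
  rw [Finset.mem_filter] at hb
  exact ⟨b, hb.2 u (by simp), hb.2 v (by simp), hb.2 w (by simp)⟩

theorem unique_common (h3 : ∀ u v w : Fin m, u ≠ v → u ≠ w → v ≠ w → common adj {u, v, w} = 1)
    {u v w : Fin m} (h1 : u ≠ v) (h2 : u ≠ w) (h4 : v ≠ w) {b c : Fin N}
    (hu : adj u b) (hv : adj v b) (hw : adj w b) (hu' : adj u c) (hv' : adj v c)
    (hw' : adj w c) : b = c := by
  have h := h3 u v w h1 h2 h4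
  rw [common_eq, Finset.card_eq_one] at h
  obtain ⟨d, hd⟩ := h
  have hb : b ∈ ({d} : Finset (Fin N)) := by
    rw [← hd, Finset.mem_filter]
    refine ⟨mem_univ _, ?_⟩
    intro x hx
    simp only [Finset.mem_insert, Finset.mem_singleton] at hx
    rcases hx with rfl | rfl | rfl <;> assumption
  have hc : c ∈ ({d} : Finset (Fin N)) := by
    rw [← hd, Finset.mem_filter]
    refine ⟨mem_univ _, ?_⟩
    intro x hx
    simp only [Finset.mem_insert, Finset.mem_singleton] at hx
    rcases hx with rfl | rfl | rfl <;> assumption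
  rw [Finset.mem_singleton] at hb hc
  rw [hb, hc]

/-- Case 1: no vertex of `B` is joined to all of `A`. -/
theorem card_le_of_no_full
    (h3 : ∀ u v w : Fin m, u ≠ v → u ≠ w → v ≠ w → common adj {u, v, w} = 1)
    {L : ℕ} (hL : ∀ u v : Fin m, u ≠ v → common adj {u, v} ≤ L)
    (hfull : ∀ b, ∃ v, ¬ adj v b) (hm : 2 ≤ m) : m ≤ 2 + L * L := by
  -- degrees on the side `B` are at most `L + 1`
  have hdeg : ∀ b, (univ.filter (fun v : Fin m => adj v b)).card ≤ L + 1 := by
    intro b
    by_cases hne : (univ.filter (fun v : Fin m => adj v b)).Nonempty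
    · obtain ⟨u, hu⟩ := hne
      obtain ⟨v, hv⟩ := hfull b
      have hub : adj u b := (Finset.mem_filter.1 hu).2
      have huv : u ≠ v := by
        rintro rfl
        exact hv hub
      have hg : ∀ w ∈ (univ.filter (fun v : Fin m => adj v b)).erase u,
          ∃ c, adj u c ∧ adj v c ∧ adj w c := by
        intro w hw
        have hwu : w ≠ u := Finset.ne_of_mem_erase hw
        have hwb : adj w b := (Finset.mem_filter.1 (Finset.mem_of_mem_erase hw)).2
        have hvw : v ≠ w := by
          rintro rfl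
          exact hv hwb
        exact exists_common h3 huv hwu.symm hvw
      have : Nonempty (Fin N) := ⟨b⟩
      choose! g hg1 hg2 hg3 using hg
      have hcard : ((univ.filter (fun v : Fin m => adj v b)).erase u).card ≤
          (univ.filter (fun c : Fin N => ∀ x ∈ ({u, v} : Finset (Fin m)), adj x c)).card := by
        apply Finset.card_le_card_of_injOn g
        · intro w hw
          simp only [Finset.coe_filter, Finset.mem_univ, true_and, Set.mem_ofPred_eq]
          intro x hx
          simp only [Finset.mem_insert, Finset.mem_singleton] at hx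
          rcases hx with rfl | rfl
          · exact hg1 w hw
          · exact hg2 w hw
        · intro w hw w' hw' hgw
          by_contra hne
          have hwu : w ≠ u := Finset.ne_of_mem_erase hw
          have hwu' : w' ≠ u := Finset.ne_of_mem_erase hw'
          have hwb : adj w b := (Finset.mem_filter.1 (Finset.mem_of_mem_erase hw)).2
          have hwb' : adj w' b := (Finset.mem_filter.1 (Finset.mem_of_mem_erase hw')).2
          have hbc : b = g w := unique_common h3 hwu.symm hwu'.symm hne hub hwb hwb'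
            (hg1 w hw) (hg3 w hw) (by rw [hgw]; exact hg3 w' hw')
          exact hv (by rw [hbc]; exact hg2 w hw)
      rw [← common_eq, Finset.card_erase_of_mem hu] at hcard
      have := hL u v huv
      omega
    · rw [Finset.not_nonempty_iff_eq_empty] at hne
      rw [hne]
      simp
  have h0 : 0 < m := by omega
  have h1 : 1 < m := by omega
  set u : Fin m := ⟨0, h0⟩ with hu
  set v : Fin m := ⟨1, h1⟩ with hv
  have huv : u ≠ v := by
    intro h
    have := congrArg Fin.val h
    simp [hu, hv] at this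
  set C : Finset (Fin N) := univ.filter (fun c : Fin N => ∀ x ∈ ({u, v} : Finset (Fin m)), adj x c)
    with hC
  have hCcard : C.card ≤ L := by
    rw [hC, ← common_eq]
    exact hL u v huv
  have hsub : (univ : Finset (Fin m)) \ {u, v} ⊆
      C.biUnion (fun c => (univ.filter (fun x : Fin m => adj x c)).erase u |>.erase v) := by
    intro w hw
    simp only [Finset.mem_sdiff, Finset.mem_univ, true_and, Finset.mem_insert,
      Finset.mem_singleton, not_or] at hw
    obtain ⟨c, hc1, hc2, hc3⟩ := exists_common h3 huv (Ne.symm hw.1) (Ne.symm hw.2)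
    rw [Finset.mem_biUnion]
    refine ⟨c, ?_, ?_⟩
    · rw [hC, Finset.mem_filter]
      refine ⟨mem_univ _, ?_⟩
      intro x hx
      simp only [Finset.mem_insert, Finset.mem_singleton] at hx
      rcases hx with rfl | rfl <;> assumption
    · rw [Finset.mem_erase, Finset.mem_erase, Finset.mem_filter]
      exact ⟨hw.2, hw.1, mem_univ _, hc3⟩
  have hcard := (Finset.card_le_card hsub).trans Finset.card_biUnion_le
  have hbound : ∀ c ∈ C,
      ((univ.filter (fun x : Fin m => adj x c)).erase u |>.erase v).card ≤ L := by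
    intro c hc
    rw [hC, Finset.mem_filter] at hc
    have hcu : adj u c := hc.2 u (by simp)
    have h2 : ((univ.filter (fun x : Fin m => adj x c)).erase u |>.erase v).card ≤
        ((univ.filter (fun x : Fin m => adj x c)).erase u).card :=
      Finset.card_le_card (Finset.erase_subset _ _)
    have hmem : u ∈ univ.filter (fun x : Fin m => adj x c) :=
      Finset.mem_filter.2 ⟨mem_univ _, hcu⟩
    rw [Finset.card_erase_of_mem hmem] at h2
    have := hdeg c
    omega
  have hsum := Finset.sum_le_card_nsmul C _ L hbound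
  rw [smul_eq_mul] at hsum
  have h4 : ((univ : Finset (Fin m)) \ {u, v}).card = m - 2 := by
    rw [Finset.card_sdiff_of_subset (Finset.subset_univ _), Finset.card_univ, Fintype.card_fin,
      Finset.card_pair huv]
  rw [h4] at hcard
  have h5 : C.card * L ≤ L * L := Nat.mul_le_mul_right _ hCcard
  omega

/-- Case 2: some vertex of `B` is joined to all of `A`. -/
theorem degree_ge_of_full
    (h3 : ∀ u v w : Fin m, u ≠ v → u ≠ w → v ≠ w → common adj {u, v, w} = 1)
    {l : ℕ} (hl : ∀ u v : Fin m, u ≠ v → l + 1 ≤ common adj {u, v})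
    {b₀ : Fin N} (hfull : ∀ v, adj v b₀) (u : Fin m) :
    (m - 1) * l ≤ common adj {u} := by
  have hdisj : ((univ.erase u : Finset (Fin m)) : Set (Fin m)).PairwiseDisjoint
      (fun v => (univ.filter (fun b : Fin N => ∀ x ∈ ({u, v} : Finset (Fin m)), adj x b)).erase
        b₀) := by
    intro v hv w hw hvw
    rw [Function.onFun, Finset.disjoint_left]
    intro b hb hb'
    rw [Finset.mem_erase, Finset.mem_filter] at hb hb'
    have hvu : v ≠ u := Finset.ne_of_mem_erase hv
    have hwu : w ≠ u := Finset.ne_of_mem_erase hw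
    exact hb.1 (unique_common h3 hvu.symm hwu.symm hvw (hb.2.2 u (by simp)) (hb.2.2 v (by simp))
      (hb'.2.2 w (by simp)) (hfull u) (hfull v) (hfull w))
  have h1 := Finset.card_biUnion hdisj
  have h2 : ((univ.erase u : Finset (Fin m)).biUnion
      (fun v => (univ.filter (fun b : Fin N => ∀ x ∈ ({u, v} : Finset (Fin m)), adj x b)).erase
        b₀)) ⊆ univ.filter (fun b : Fin N => ∀ x ∈ ({u} : Finset (Fin m)), adj x b) := by
    intro b hb
    rw [Finset.mem_biUnion] at hb
    obtain ⟨v, -, hb⟩ := hb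
    rw [Finset.mem_erase, Finset.mem_filter] at hb
    rw [Finset.mem_filter]
    refine ⟨mem_univ _, ?_⟩
    intro x hx
    rw [Finset.mem_singleton] at hx
    subst hx
    exact hb.2.2 x (by simp)
  have h4 := Finset.card_le_card h2
  rw [h1, ← common_eq] at h4
  refine le_trans ?_ h4
  have h5 : (univ.erase u : Finset (Fin m)).card • l ≤ ∑ v ∈ univ.erase u,
      ((univ.filter (fun b : Fin N => ∀ x ∈ ({u, v} : Finset (Fin m)), adj x b)).erase
        b₀).card := by
    apply Finset.card_nsmul_le_sum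
    intro v hv
    have hvu : v ≠ u := Finset.ne_of_mem_erase hv
    rw [Finset.card_erase_of_mem, ← common_eq]
    · have := hl u v hvu.symm
      omega
    · rw [Finset.mem_filter]
      exact ⟨mem_univ _, fun x _ => hfull x⟩
  rwa [Finset.card_erase_of_mem (mem_univ _), Finset.card_univ, Fintype.card_fin,
    smul_eq_mul] at h5

end combinatorics

theorem inRange_nonempty : ∃ b₂ : ℕ → ℝ, InRange b₂ := by
  refine ⟨fun m => ((m : ℝ) + 1) ^ ((1 : ℝ) / 4), ?_, ?_, ?_⟩
  · intro m
    positivity
  · have h1 : Tendsto (fun m : ℕ => (m : ℝ) + 1) atTop atTop :=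
      tendsto_atTop_add_const_right _ _ tendsto_natCast_atTop_atTop
    exact (tendsto_rpow_atTop (by norm_num : (0 : ℝ) < 1 / 4)).comp h1
  · have h1 : Tendsto (fun m : ℕ => 2 * ((m : ℝ)) ^ (-((1 : ℝ) / 4))) atTop (𝓝 (2 * 0)) :=
      ((tendsto_rpow_neg_atTop (by norm_num : (0 : ℝ) < 1 / 4)).comp
        tendsto_natCast_atTop_atTop).const_mul 2
    rw [mul_zero] at h1
    refine squeeze_zero' (Eventually.of_forall fun m => by positivity) ?_ h1
    filter_upwards [eventually_ge_atTop 1] with m hm
    have hm' : (1 : ℝ) ≤ m := by exact_mod_cast hm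
    have hm0 : (0 : ℝ) < m := by linarith
    have h2 : ((m : ℝ) + 1) ^ ((1 : ℝ) / 4) ≤ 2 * (m : ℝ) ^ ((1 : ℝ) / 4) := by
      calc ((m : ℝ) + 1) ^ ((1 : ℝ) / 4) ≤ (2 * (m : ℝ)) ^ ((1 : ℝ) / 4) :=
            Real.rpow_le_rpow (by positivity) (by linarith) (by norm_num)
        _ = (2 : ℝ) ^ ((1 : ℝ) / 4) * (m : ℝ) ^ ((1 : ℝ) / 4) :=
            Real.mul_rpow (by norm_num) hm0.le
        _ ≤ 2 * (m : ℝ) ^ ((1 : ℝ) / 4) := by
            apply mul_le_mul_of_nonneg_right _ (by positivity)
            calc (2 : ℝ) ^ ((1 : ℝ) / 4) ≤ (2 : ℝ) ^ (1 : ℝ) :=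
                  Real.rpow_le_rpow_of_exponent_le (by norm_num) (by norm_num)
              _ = 2 := Real.rpow_one 2
    rw [div_le_iff₀ (Real.sqrt_pos.2 hm0)]
    refine h2.trans (le_of_eq ?_)
    rw [Real.sqrt_eq_rpow, mul_assoc, ← Real.rpow_add hm0]
    norm_num

/-- **Answer to Q1.**  The range `1 ≪ b₂ ≪ √m` is nonempty, and for no function `b₂` in this range
is there an admissible sequence of bipartite graphs. -/
theorem result :
    (∃ b₂ : ℕ → ℝ, InRange b₂) ∧
    ∀ b₂ : ℕ → ℝ, InRange b₂ →
      ¬ ∃ (N : ℕ → ℕ) (adj : ∀ m : ℕ, Fin m → Fin (N m) → Prop), Admissible b₂ N adj := by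
  refine ⟨inRange_nonempty, ?_⟩
  rintro b₂ ⟨hpos, hinf, hsq⟩ ⟨N, adj, hadj⟩
  have h1 := hadj.degree 1 one_pos
  have h2 := hadj.pair (1 / 2) (by norm_num)
  have h3 := hadj.triple
  have h4 := hinf.eventually_ge_atTop 12
  have h5 := hsq.eventually (gt_mem_nhds (show (0 : ℝ) < 1 / 4 by norm_num))
  obtain ⟨m, h1, h2, h3, h4, h5, h6⟩ :=
    (h1.and (h2.and (h3.and (h4.and (h5.and (eventually_ge_atTop 4)))))).exists
  have hm4 : (4 : ℝ) ≤ m := by exact_mod_cast h6
  have hm0 : (0 : ℝ) < m := by linarith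
  have hb := hpos m
  -- upper and lower bounds for the pair neighbourhoods
  have hup : ∀ u v : Fin m, u ≠ v → (common (adj m) {u, v} : ℝ) ≤ 3 / 2 * b₂ m := by
    intro u v huv
    have h := (abs_le.1 (h2 u v huv)).2
    have h7 : (common (adj m) {u, v} : ℝ) / b₂ m ≤ 3 / 2 := by linarith
    rwa [div_le_iff₀ hb] at h7
  have hlo : ∀ u v : Fin m, u ≠ v → 1 / 2 * b₂ m ≤ (common (adj m) {u, v} : ℝ) := by
    intro u v huv
    have h := (abs_le.1 (h2 u v huv)).1
    have h7 : 1 / 2 ≤ (common (adj m) {u, v} : ℝ) / b₂ m := by linarith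
    rwa [le_div_iff₀ hb] at h7
  by_cases hfull : ∀ b, ∃ v, ¬ adj m v b
  · have h7 : ∀ u v : Fin m, u ≠ v → common (adj m) {u, v} ≤ ⌊3 / 2 * b₂ m⌋₊ := by
      intro u v huv
      exact Nat.le_floor (hup u v huv)
    have h8 := card_le_of_no_full h3 h7 hfull (by omega)
    have h9 : ((⌊3 / 2 * b₂ m⌋₊ : ℕ) : ℝ) ≤ 3 / 2 * b₂ m := Nat.floor_le (by positivity)
    have h10 : (m : ℝ) ≤ 2 + (⌊3 / 2 * b₂ m⌋₊ : ℝ) * (⌊3 / 2 * b₂ m⌋₊ : ℝ) := by
      exact_mod_cast h8
    have h11 : b₂ m ≤ 1 / 4 * Real.sqrt m := by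
      rw [div_lt_iff₀ (Real.sqrt_pos.2 hm0)] at h5
      exact h5.le
    have h12 : Real.sqrt m * Real.sqrt m = m := Real.mul_self_sqrt hm0.le
    have h13 : (0 : ℝ) ≤ (⌊3 / 2 * b₂ m⌋₊ : ℝ) := Nat.cast_nonneg _
    have h14 : (⌊3 / 2 * b₂ m⌋₊ : ℝ) ≤ 3 / 8 * Real.sqrt m := by linarith
    nlinarith [Real.sqrt_nonneg (m : ℝ), mul_le_mul h14 h14 h13 (by positivity)]
  · push Not at hfull
    obtain ⟨b₀, hb₀⟩ := hfull
    have h7 : ∀ u v : Fin m, u ≠ v → 5 + 1 ≤ common (adj m) {u, v} := by
      intro u v huv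
      have := hlo u v huv
      have h8 : (6 : ℝ) ≤ (common (adj m) {u, v} : ℝ) := by linarith
      exact_mod_cast h8
    have h8 := degree_ge_of_full h3 h7 hb₀ ⟨0, by omega⟩
    have h9 := (abs_le.1 (h1 ⟨0, by omega⟩)).2
    have h10 : (common (adj m) {(⟨0, by omega⟩ : Fin m)} : ℝ) / m ≤ 2 := by linarith
    rw [div_le_iff₀ hm0] at h10
    have h11 : (common (adj m) {(⟨0, by omega⟩ : Fin m)}) ≤ 2 * m := by exact_mod_cast h10
    omega

end Pool.Agent.Results.MP_8b0535_co.NoAdmissible
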